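import Pool.Agent.Lib.MP_5a0708_an.KRW.All

/-!
# MP_5a0708_an : the automorphism group of the 2-shift modulo the shift and the involutions is
abelian
-/

set_option autoImplicit false

namespace Pool.Agent.Results.MP_5a0708_an.AbelianQuotient

open Pool.MP_5a0708_an

/-- For all automorphisms `α`, `β` of the full 2-shift the commutator `[α, β]` is a composition of a
power of the shift and finitely many shift-commuting involutions. -/
theorem result (α β : Equiv.Perm (ℤ → Bool)) (hα : Continuous α) (hβ : Continuous β)
    (hα' : ∀ x : ℤ → Bool, α (fun n => x (n + 1)) = fun n => α x (n + 1))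
    (hβ' : ∀ x : ℤ → Bool, β (fun n => x (n + 1)) = fun n => β x (n + 1)) :
    Gen (α * β * α⁻¹ * β⁻¹ : Equiv.Perm (ℤ → Bool)) :=
  gen_of_mem_G (KRW.all_ab α β (Nil.mem_Au_of hα hα') (Nil.mem_Au_of hβ hβ'))

end Pool.Agent.Results.MP_5a0708_an.AbelianQuotient
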