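import Pool.Agent.Lib.MP_5a0708_an.Main

/-!
# MP_5a0708_an : density of the group generated by the shift and the involutions
-/

set_option autoImplicit false

namespace Pool.Agent.Results.MP_5a0708_an.Density

open Pool.MP_5a0708_an

/-- For every automorphism `φ` of the full 2-shift there is `L` such that for every `n` a
composition `ψ` of a power of the shift and finitely many shift-commuting involutions agrees with
`φ` at the coordinate `0` on all points having `0^L` inside `[-n, 0)` and inside `[0, n)`.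
Consequently these compositions come arbitrarily close to `φ` with respect to every
shift-invariant probability measure for which almost all points contain arbitrarily long runs of
zeros. -/
theorem result (φ : (ℤ → Bool) → (ℤ → Bool)) (hc : Continuous φ) (hb : Function.Bijective φ)
    (hs : ∀ x : ℤ → Bool, φ (fun n => x (n + 1)) = fun n => φ x (n + 1)) :
    (∃ L : ℕ, ∀ n : ℕ, ∃ ψ : (ℤ → Bool) → (ℤ → Bool), Gen ψ ∧ ∀ x : ℤ → Bool,
      (∃ p : ℤ, -(n : ℤ) ≤ p ∧ p + L ≤ 0 ∧ ZOn x p (p + L)) →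
      (∃ q : ℤ, 0 ≤ q ∧ q + L ≤ n ∧ ZOn x q (q + L)) → ψ x 0 = φ x 0) ∧
    (∀ μ : MeasureTheory.Measure (ℤ → Bool), MeasureTheory.IsProbabilityMeasure μ →
      MeasureTheory.MeasurePreserving (fun x : ℤ → Bool => fun n : ℤ => x (n + 1)) μ μ →
      (∀ L : ℕ, ∀ᵐ x ∂μ, ∃ p : ℤ, ZOn x p (p + L)) →
      ∀ ε : ENNReal, 0 < ε → ∃ ψ : (ℤ → Bool) → (ℤ → Bool), Gen ψ ∧
        μ {x | ψ x 0 ≠ φ x 0} < ε) := by
  obtain ⟨L, hL⟩ := approx φ hc hb hs
  exact ⟨⟨L, hL⟩, fun μ hμ hinv hae => measureCor φ L Gen hL μ hμ hinv (hae L)⟩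

end Pool.Agent.Results.MP_5a0708_an.Density
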