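import Pool.Agent.Lib.MP_5a0708_an.Main

/-!
# MP_5a0708_an : the long runs of zeros can be straightened
-/

set_option autoImplicit false

namespace Pool.Agent.Results.MP_5a0708_an.ZeroRuns

open Pool.MP_5a0708_an

/-- For every automorphism `φ` of the full 2-shift there is a composition `ψ` of a power of the
shift and finitely many shift-commuting involutions such that `ψ ∘ φ` preserves exactly the
occurrences of `0^L`, for every `L ≥ L0`. -/
theorem result (φ : (ℤ → Bool) → (ℤ → Bool)) (hc : Continuous φ) (hb : Function.Bijective φ)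
    (hs : ∀ x : ℤ → Bool, φ (fun n => x (n + 1)) = fun n => φ x (n + 1)) :
    ∃ ψ : (ℤ → Bool) → (ℤ → Bool), Gen ψ ∧ ∃ L0 : ℕ, ∀ L : ℕ, L0 ≤ L →
      ∀ (x : ℤ → Bool) (i : ℤ), ZOn (ψ (φ x)) i (i + L) ↔ ZOn x i (i + L) :=
  zeroRuns φ hc hb hs

end Pool.Agent.Results.MP_5a0708_an.ZeroRuns
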